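import Pool.Agent.Lib_helper67.ScdAll

/-!
# The 6-cube has no four pairwise almost-orthogonal symmetric chain decompositions

Since `⌊6/2⌋ + 1 = 4`, this answers the question in the negative.
-/

namespace Pool.Agent.Results.MP_d31171_co.NoFourInSixCube

variable {n : ℕ}

/-- A symmetric chain of the `n`-cube: its members are totally ordered by inclusion, their sizes
form an unbroken range `a, a + 1, …, b` (so consecutive members differ in size by exactly one;
the range is nonempty) and `a + b = n`. -/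
def IsSymmetricChain (C : Finset (Finset (Fin n))) : Prop :=
  IsChain (· ⊆ ·) (C : Set (Finset (Fin n))) ∧
    ∃ a b : ℕ, a ≤ b ∧ C.image Finset.card = Finset.Icc a b ∧ a + b = n

/-- A symmetric chain decomposition: a partition of the `n`-cube into symmetric chains. -/
def IsSCD (D : Finset (Finset (Finset (Fin n)))) : Prop :=
  (∀ C ∈ D, IsSymmetricChain C) ∧ ∀ s : Finset (Fin n), ∃! C, C ∈ D ∧ s ∈ C

/-- The maximal chain is the one that contains both `∅` and `[n]`. -/
def IsMaximalChain (C : Finset (Finset (Fin n))) : Prop :=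
  ∅ ∈ C ∧ Finset.univ ∈ C

/-- Almost orthogonality: two chains share at most one set, except that the two maximal chains
may meet, but only in `∅` and `[n]`. -/
def AlmostOrthogonal (D E : Finset (Finset (Finset (Fin n)))) : Prop :=
  ∀ C ∈ D, ∀ F ∈ E,
    (IsMaximalChain C ∧ IsMaximalChain F → C ∩ F ⊆ {∅, Finset.univ}) ∧
    (¬ (IsMaximalChain C ∧ IsMaximalChain F) → (C ∩ F).card ≤ 1)

/-- A symmetric chain that contains `∅` contains `[n]`. -/
theorem univ_mem {C : Finset (Finset (Fin n))} (h : IsSymmetricChain C) (h0 : ∅ ∈ C) :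
    Finset.univ ∈ C := by
  obtain ⟨_, a, b, hab, hC, hn⟩ := h
  have h1 : (0 : ℕ) ∈ C.image Finset.card := Finset.mem_image.2 ⟨∅, h0, rfl⟩
  rw [hC, Finset.mem_Icc] at h1
  have h2 : b ∈ C.image Finset.card := by
    rw [hC, Finset.mem_Icc]
    omega
  obtain ⟨s, hs, hs'⟩ := Finset.mem_image.1 h2
  have h3 : s = Finset.univ := by
    rw [← Finset.card_eq_iff_eq_univ, Fintype.card_fin]
    omega
  rw [← h3]
  exact hs

/-- There are no `⌊6/2⌋ + 1 = 4` pairwise almost-orthogonal symmetric chain decompositions of the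
6-cube. -/
theorem result :
    ¬ ∃ D : Fin (6 / 2 + 1) → Finset (Finset (Finset (Fin 6))),
      (∀ i, IsSCD (D i)) ∧ ∀ i j, i ≠ j → AlmostOrthogonal (D i) (D j) := by
  rintro ⟨D, hD, hO⟩
  refine Pool.Agent.Scd67.no_fam _ (Pool.Agent.Scd67.fam_rel D ?_ ?_)
  · intro i
    refine ⟨fun C hC => ?_, (hD i).2⟩
    obtain ⟨h1, a, b, hab, h2, h3⟩ := (hD i).1 C hC
    refine ⟨h1, a, by omega, ?_⟩
    rw [h2]
    congr 1
    omega
  · intro i j hij C hC E hE
    have h := hO i j hij C hC E hE
    refine ⟨fun h1 h2 => h.1 ⟨⟨h1, univ_mem ((hD i).1 C hC) h1⟩, ⟨h2, univ_mem ((hD j).1 E hE) h2⟩⟩,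
      fun h1 => h.2 fun h2 => h1 ⟨h2.1.1, h2.2.1⟩⟩

end Pool.Agent.Results.MP_d31171_co.NoFourInSixCube
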